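import Mathlib

namespace Pool.Agent.Results.MP_9c1228_co.No

open Set Metric MeasureTheory Filter Asymptotics Pointwise

abbrev E := EuclideanSpace ℝ (Fin 2)

/-- `X` is a finite union of tiles. -/
def Patch (𝒯 : Set (Set E)) (X : Set E) : Prop := ∃ F ⊆ 𝒯, F.Finite ∧ ⋃₀ F = X

/-- Translation by `v` maps the tiles inside `X` onto the tiles inside `v + X`. -/
def Moves (𝒯 : Set (Set E)) (v : E) (X : Set E) : Prop :=
  (v +ᵥ ·) '' {T ∈ 𝒯 | T ⊆ X} = {T ∈ 𝒯 | T ⊆ v +ᵥ X}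

/-- A face-to-face tiling by translates of finitely many polygons, repetitive, with inflation and
deflation for the expansion `x ↦ r • x`. -/
structure SelfAffine (𝒯 : Set (Set E)) (r : ℝ) : Prop where
  proto : ∃ S : Set (Set E), S.Finite ∧ (∀ s ∈ S, s.Finite) ∧
    ∀ T ∈ 𝒯, (interior T).Nonempty ∧ ∃ s ∈ S, ∃ v : E, T = v +ᵥ convexHull ℝ s
  cover : ⋃₀ 𝒯 = univ
  disj : 𝒯.Pairwise fun S T => Disjoint (interior S) (interior T)
  face : ∀ S ∈ 𝒯, ∀ T ∈ 𝒯, IsExposed ℝ S (S ∩ T)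
  rep : ∀ X, Patch 𝒯 X → ∃ R > 0, ∀ c, ∃ v : E,
    v +ᵥ X ⊆ ball c R ∧ Patch 𝒯 (v +ᵥ X) ∧ Moves 𝒯 v X
  infl : ∀ T ∈ 𝒯, Patch 𝒯 (r • T)
  defl : ∀ S ∈ 𝒯, ∀ T ∈ 𝒯, (∃ v : E, T = v +ᵥ S) →
    ∃ v : E, r • T = v +ᵥ r • S ∧ Moves 𝒯 v (r • S)

/-- The vertices of the tiles. -/
def Vert (𝒯 : Set (Set E)) : Set E := ⋃ T ∈ 𝒯, T.extremePoints ℝ

def G (y : ℤ) : Prop := Even (padicValInt 2 y)

theorem G1 (y : ℤ) (h : y % 2 = 1) : G y := by
  rw [G, padicValInt.eq_zero_of_not_dvd (by push_cast; omega)]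
  exact ⟨0, rfl⟩

theorem G2 (y : ℤ) (h : y ≠ 0) : G (y * 2) ↔ ¬G y := by
  have := padicValInt_mul_eq_succ (p := 2) y h
  simp only [G, Nat.cast_ofNat] at *
  rw [this, Nat.even_add_one]

theorem G3 (y : ℤ) (h : y % 4 = 2) : ¬G y := by
  rw [show y = y / 2 * 2 by omega, G2 _ (by omega), not_not]
  exact G1 _ (by omega)

theorem G4 (y : ℤ) : G (y * 4) ↔ G y := by
  by_cases h : y = 0
  · simp [h]
  · rw [show y * 4 = y * 2 * 2 by ring, G2 _ (by omega), G2 _ h, not_not]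

theorem G5 (j : ℕ) (y m : ℤ) (h : |y| < 4 ^ j) : G (y + 4 ^ j * (2 * m + 1)) ↔ G y := by
  induction j generalizing y with
  | zero =>
    obtain rfl : y = 0 := by simpa using h
    exact iff_of_true (G1 _ (by omega)) (by simp [G])
  | succ j ih =>
    rw [pow_succ, mul_right_comm]
    obtain a | a | a : y % 2 = 1 ∨ y % 4 = 2 ∨ y % 4 = 0 := by omega
    · exact iff_of_true (G1 _ (by omega)) (G1 _ a)
    · exact iff_of_false (G3 _ (by omega)) (G3 _ a)
    · obtain ⟨z, rfl⟩ : ∃ z, y = z * 4 := ⟨y / 4, by omega⟩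
      rw [← add_mul, G4, G4, ih]
      rw [abs_lt, pow_succ] at *
      omega

def g (n : ℤ) : Prop := G (n - 1)

theorem g0 (n : ℤ) (h : n % 2 = 0) : g n := G1 _ (by omega)

theorem g3 (n : ℤ) (h : n % 4 = 3) : ¬g n := G3 _ (by omega)

theorem g1 (n m : ℤ) (h : n = 4 * m + 1) : g n ↔ g (m + 1) := by
  rw [g, g, show n - 1 = m * 4 by omega, G4, add_sub_cancel_right]

open Classical in
noncomputable def nx (a : ℤ) : ℤ := if g (a + 1) then a + 1 else a + 2

theorem nx_cases (a : ℤ) : g (a + 1) ∧ nx a = a + 1 ∨ ¬g (a + 1) ∧ nx a = a + 2 ∧ a % 2 = 0 := by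
  unfold nx
  split_ifs with h
  · exact .inl ⟨h, rfl⟩
  · exact .inr ⟨h, rfl, by_contra fun c => h (g0 _ (by omega))⟩

theorem nx_g (a : ℤ) : g (nx a) := by
  obtain ⟨h, e⟩ | ⟨-, e, h⟩ := nx_cases a <;> rw [e]
  exacts [h, g0 _ (by omega)]

theorem nx_lt (a : ℤ) : a < nx a := by have := nx_cases a; omega

theorem nx_le {a b : ℤ} (h : a < b) (hb : g b) : nx a ≤ b := by
  obtain ⟨-, e⟩ | ⟨h, e, -⟩ := nx_cases a
  · omega
  · by_contra c
    exact h ((by omega : b = a + 1) ▸ hb)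

theorem cov {l u : ℤ} (h : l < u) (hl : g l) {x : ℝ} (a : 2 * l ≤ x) (b : x ≤ 2 * u) :
    ∃ n, g n ∧ l ≤ n ∧ n < u ∧ 2 * n ≤ x ∧ x ≤ 2 * nx n := by
  obtain ⟨n, n1, n2, n3, n4⟩ : ∃ n : ℤ, l ≤ n ∧ n < u ∧ 2 * n ≤ x ∧ x ≤ 2 * n + 2 := by
    by_cases c : x = 2 * u
    · exact ⟨u - 1, by omega, by omega, by push_cast; linarith, by push_cast; linarith⟩
    · exact ⟨⌊x / 2⌋, Int.le_floor.mpr (by linarith),
        Int.floor_lt.mpr (by have := b.lt_of_ne c; linarith),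
        by linarith [Int.floor_le (x / 2)], by linarith [Int.lt_floor_add_one (x / 2)]⟩
  by_cases c : g n
  · have : (n : ℝ) + 1 ≤ nx n := by exact_mod_cast nx_lt n
    exact ⟨n, c, n1, n2, n3, by linarith⟩
  · have : n ≠ l := by rintro rfl; exact c hl
    obtain ⟨d, -⟩ | ⟨-, e, d⟩ := nx_cases (n - 1)
    · exact absurd (by simpa using d) c
    · exact ⟨n - 1, g0 _ d, by omega, by omega, by push_cast; linarith,
        by rw [e]; push_cast; linarith⟩

def box (l u : Fin 2 → ℝ) : Set E := {p | ∀ i, l i ≤ p i ∧ p i ≤ u i}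

noncomputable def L : (Fin 2 → ℝ) ≃L[ℝ] E := (EuclideanSpace.equiv _ _).symm

theorem mem_L (s : Fin 2 → Set ℝ) (p : E) : p ∈ L '' univ.pi s ↔ ∀ i, p i ∈ s i :=
  ⟨by rintro ⟨q, h, rfl⟩ i; exact h i trivial, fun h => ⟨p.ofLp, fun i _ => h i, rfl⟩⟩

theorem box_eq (l u : Fin 2 → ℝ) : box l u = L '' univ.pi fun i => Icc (l i) (u i) :=
  Set.ext fun p => (mem_L (fun i => Icc (l i) (u i)) p).symm

theorem box_int (l u : Fin 2 → ℝ) (p : E) :
    p ∈ interior (box l u) ↔ ∀ i, l i < p i ∧ p i < u i := by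
  rw [box_eq, show interior (L '' _) = L '' _ from (L.toHomeomorph.image_interior _).symm,
    interior_pi_set finite_univ, mem_L]
  simp

theorem box_closed (l u : Fin 2 → ℝ) : IsClosed (box l u) := by
  rw [box_eq]
  exact L.isClosed_image.mpr (isClosed_set_pi fun _ _ => isClosed_Icc)

theorem box_ext {l u : Fin 2 → ℝ} (h : ∀ i, l i ≤ u i) (p : E) :
    p ∈ (box l u).extremePoints ℝ ↔ ∀ i, p i = l i ∨ p i = u i := by
  rw [box_eq, ← image_extremePoints, extremePoints_pi, mem_L]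
  simp [extremePoints_Icc (h _)]

theorem box_add (v : E) (l u : Fin 2 → ℝ) :
    v +ᵥ box l u = box (fun i => v i + l i) (fun i => v i + u i) := by
  ext p
  simp [mem_vadd_set_iff_neg_vadd_mem, box, le_neg_add_iff_add_le]

theorem box_smul {r : ℝ} (h : 0 < r) (l u : Fin 2 → ℝ) :
    r • box l u = box (fun i => r * l i) (fun i => r * u i) := by
  ext p
  simp [mem_smul_set_iff_inv_smul_mem₀ h.ne', box, le_inv_mul_iff₀ h, inv_mul_le_iff₀ h]

def tile (a : Fin 2 → ℤ) : Set E := box (fun i => 2 * a i) (fun i => 2 * nx (a i))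

def 𝒯 : Set (Set E) := tile '' {a | ∀ i, g (a i)}

noncomputable def pt (a : Fin 2 → ℤ) : E := L fun i => 2 * a i

theorem pt_ap (a : Fin 2 → ℤ) (i : Fin 2) : pt a i = 2 * a i := rfl

theorem nxR (a : ℤ) : (a : ℝ) + 1 ≤ nx a := by exact_mod_cast nx_lt a

theorem lo (a : Fin 2 → ℤ) : pt a ∈ tile a := fun i =>
  ⟨le_rfl, by rw [pt_ap]; linarith [nxR (a i)]⟩

theorem hi (a : Fin 2 → ℤ) : pt (fun i => nx (a i)) ∈ tile a := fun i =>
  ⟨by rw [pt_ap]; linarith [nxR (a i)], le_rfl⟩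

theorem patch_box {l u : Fin 2 → ℤ} (h : ∀ i, l i < u i) (hl : ∀ i, g (l i)) (hu : ∀ i, g (u i)) :
    Patch 𝒯 (box (fun i => 2 * l i) fun i => 2 * u i) := by
  refine ⟨tile '' {a | ∀ i, g (a i) ∧ l i ≤ a i ∧ a i < u i},
    image_mono fun a ha i => (ha i).1, ((finite_Icc l u).subset fun a ha =>
      ⟨fun i => (ha i).2.1, fun i => (ha i).2.2.le⟩).image _, Set.ext fun p => ⟨?_, fun hp => ?_⟩⟩
  · rintro ⟨_, ⟨a, ha, rfl⟩, hp⟩ i
    have x : (l i : ℝ) ≤ a i := by exact_mod_cast (ha i).2.1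
    have y : (nx (a i) : ℝ) ≤ u i := by exact_mod_cast nx_le (ha i).2.2 (hu i)
    exact ⟨by linarith [(hp i).1], by linarith [(hp i).2]⟩
  · choose a ha using fun i => cov (h i) (hl i) (hp i).1 (hp i).2
    exact ⟨_, ⟨a, fun i => ⟨(ha i).1, (ha i).2.1, (ha i).2.2.1⟩, rfl⟩, fun i => (ha i).2.2.2⟩

def Ok (t : Fin 2 → ℤ) (X : Set E) : Prop :=
  ∀ i (n : ℤ), ∀ p ∈ X, ∀ q ∈ X, p i ≤ 2 * n → 2 * n ≤ q i → (g (n + t i) ↔ g n)

theorem mv {t : Fin 2 → ℤ} {X : Set E} (h : Ok t X) {T : Set E} (hT : T ∈ 𝒯) (s : T ⊆ X) :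
    pt t +ᵥ T ∈ 𝒯 := by
  obtain ⟨a, ha, rfl⟩ := hT
  have k i (n : ℤ) (x : a i ≤ n) (y : n ≤ nx (a i)) := h i n _ (s (lo a)) _ (s (hi a))
    (mul_le_mul_of_nonneg_left (Int.cast_le.mpr x) two_pos.le)
    (mul_le_mul_of_nonneg_left (Int.cast_le.mpr y) two_pos.le)
  refine ⟨a + t, fun i => (k i _ le_rfl (nx_lt _).le).mpr (ha i), ?_⟩
  have e i : nx (a i + t i) = nx (a i) + t i := by
    have := k i (a i + 1) (by omega) (nx_lt _)
    rw [add_right_comm] at this
    have := nx_cases (a i)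
    have := nx_cases (a i + t i)
    by_cases c : g (a i + 1) <;> simp only [*, not_true, not_false_iff, true_and, false_and,
      or_false, false_or] at * <;> omega
  simp only [tile, box_add, pt_ap, Pi.add_apply, e]
  congr <;> ext <;> push_cast <;> ring

theorem moves {t : Fin 2 → ℤ} {X : Set E} (h : Ok t X) : Moves 𝒯 (pt t) X := by
  refine Set.ext fun T => ⟨?_, fun ⟨a, b⟩ => ⟨pt (-t) +ᵥ T, ⟨mv (X := pt t +ᵥ X) ?_ a b, ?_⟩, ?_⟩⟩
  · rintro ⟨T, ⟨a, b⟩, rfl⟩
    exact ⟨mv h a b, vadd_set_mono b⟩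
  · rintro i n _ ⟨p, hp, rfl⟩ _ ⟨q, hq, rfl⟩ x y
    simp only [vadd_eq_add, PiLp.add_apply, pt_ap] at x y
    simpa using (h i (n + -t i) p hp q hq (by push_cast; linarith) (by push_cast; linarith)).symm
  all_goals have : pt (-t) = -pt t := by ext; simp [pt_ap]
  · rw [this]
    exact subset_vadd_set_iff.mp b
  · simp [this]

theorem patch_mv {t : Fin 2 → ℤ} {X : Set E} (h : Ok t X) (hX : Patch 𝒯 X) :
    Patch 𝒯 (pt t +ᵥ X) := by
  obtain ⟨F, a, b, rfl⟩ := hX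
  refine ⟨(pt t +ᵥ ·) '' F, ?_, b.image _, by rw [sUnion_image, sUnion_eq_biUnion]; simp [vadd_set_iUnion]⟩
  rintro _ ⟨T, hT, rfl⟩
  exact mv h (a hT) (subset_sUnion_of_mem hT)

theorem tile_eq {a b : Fin 2 → ℤ} {v : E} (h : tile b = v +ᵥ tile a) (i : Fin 2) :
    v i = 2 * (b i - a i) ∧ nx (b i) - b i = nx (a i) - a i := by
  have x := (h ▸ lo b) 
  have y := (h ▸ hi b)
  have z : v +ᵥ pt a ∈ tile b := h ▸ vadd_mem_vadd_set (lo a)
  have w : v +ᵥ pt (fun i => nx (a i)) ∈ tile b := h ▸ vadd_mem_vadd_set (hi a)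
  rw [tile, box_add] at x y
  have x := (x i).1
  have y := (y i).2
  have z := (z i).1
  have w := (w i).2
  simp only [vadd_eq_add, PiLp.add_apply, pt_ap] at x y z w
  exact ⟨by linarith, by exact_mod_cast (by linarith : (nx (b i) : ℝ) - b i = nx (a i) - a i)⟩

theorem sa : SelfAffine 𝒯 4 where
  proto := by
    refine ⟨range fun e : Fin 2 → Bool => L '' univ.pi fun i => {0, if e i then 2 else 4},
      finite_range _, ?_, ?_⟩
    · rintro _ ⟨e, rfl⟩
      exact (Finite.pi fun _ => toFinite _).image _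
    · rintro _ ⟨a, -, rfl⟩
      refine ⟨⟨L fun i => 2 * a i + 1, (box_int _ _ _).mpr fun i => ⟨lt_add_one _, ?_⟩⟩,
        _, ⟨fun i => nx (a i) = a i + 1, rfl⟩, pt a, ?_⟩
      · change 2 * (a i : ℝ) + 1 < _
        linarith [nxR (a i)]
      · have (x : ℝ) (h : 0 ≤ x) : convexHull ℝ {0, x} = Icc 0 x := by
          rw [convexHull_pair, segment_eq_Icc h]
        rw [show ∀ s, convexHull ℝ (L '' s) = L '' convexHull ℝ s from fun s =>
          (L.toLinearEquiv.toLinearMap.image_convexHull _).symm, convexHull_pi]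
        simp (disch := split_ifs <;> norm_num) only [this]
        rw [← box_eq, box_add, tile]
        congr <;> ext i
        · simp [pt_ap]
        · obtain ⟨-, e⟩ | ⟨-, e, -⟩ := nx_cases (a i) <;> simp [pt_ap, e] <;> ring
  cover := eq_univ_of_forall fun p => by
    obtain ⟨n, hn⟩ := exists_nat_gt ‖p‖
    obtain ⟨F, a, -, b⟩ := patch_box (l := fun _ => -2 * (n + 1)) (u := fun _ => 2 * (n + 1))
      (fun _ => by omega) (fun _ => g0 _ (by omega)) fun _ => g0 _ (by omega)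
    refine sUnion_mono a (b ▸ fun i => ?_)
    have := abs_le.mp (PiLp.norm_apply_le p i)
    have := norm_nonneg p
    push_cast
    constructor <;> linarith
  disj := by
    rintro _ ⟨a, ha, rfl⟩ _ ⟨b, hb, rfl⟩ ne
    refine disjoint_left.mpr fun p x y => ne (congrArg _ (funext fun i => ?_))
    have x := (box_int _ _ _).mp x i
    have y := (box_int _ _ _).mp y i
    rcases lt_trichotomy (a i) (b i) with c | c | c
    · have : (nx (a i) : ℝ) ≤ b i := by exact_mod_cast nx_le c (hb i)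
      linarith
    · exact c
    · have : (nx (b i) : ℝ) ≤ a i := by exact_mod_cast nx_le c (ha i)
      linarith
  face := by
    rintro _ ⟨a, ha, rfl⟩ _ ⟨b, hb, rfl⟩ ⟨z, z1, z2⟩
    let e : Fin 2 → ℝ := fun i => b i - a i
    have k (x y : E) (hx : x ∈ tile b) (hy : y ∈ tile a) (i : Fin 2) : e i * y i ≤ e i * x i := by
      rcases lt_trichotomy (a i) (b i) with c | c | c
      · have : (nx (a i) : ℝ) ≤ b i := by exact_mod_cast nx_le c (hb i)
        exact mul_le_mul_of_nonneg_left (by linarith [(hx i).1, (hy i).2])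
          (sub_nonneg.mpr (mod_cast c.le))
      · simp [e, c]
      · have : (nx (b i) : ℝ) ≤ a i := by exact_mod_cast nx_le c (ha i)
        exact mul_le_mul_of_nonpos_left (by linarith [(hx i).2, (hy i).1])
          (sub_nonpos.mpr (mod_cast c.le))
    refine ⟨e 0 • EuclideanSpace.proj 0 + e 1 • EuclideanSpace.proj 1, Set.ext fun x =>
      ⟨fun ⟨x1, x2⟩ => ⟨x1, fun y hy => add_le_add (k x y x2 hy 0) (k x y x2 hy 1)⟩,
        fun ⟨x1, x2⟩ => ⟨x1, fun i => ?_⟩⟩⟩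
    have u : e 0 * z 0 + e 1 * z 1 ≤ e 0 * x 0 + e 1 * x 1 := x2 z z1
    have : e i * x i = e i * z i := by
      have := k z x z2 x1 0
      have := k z x z2 x1 1
      fin_cases i <;> simp only [Fin.zero_eta, Fin.mk_one] <;> linarith
    rcases mul_eq_mul_left_iff.mp this with c | c
    · exact c ▸ z2 i
    · have : b i = a i := by exact_mod_cast sub_eq_zero.mp c
      simpa only [this] using x1 i
  rep := by
    rintro X hX
    obtain ⟨M, hM⟩ : ∃ M : ℝ, ∀ p ∈ X, ‖p‖ ≤ M := by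
      obtain ⟨F, a, b, rfl⟩ := hX
      refine isBounded_iff_forall_norm_le.mp ((Bornology.isBounded_sUnion b).mpr fun T hT => ?_)
      obtain ⟨c, -, rfl⟩ := a hT
      rw [tile, box_eq]
      exact ((isCompact_univ_pi fun _ => isCompact_Icc).image L.continuous).isBounded
    obtain ⟨j, hj⟩ := pow_unbounded_of_one_lt (|M| + 1) (by norm_num : (1 : ℝ) < 4)
    refine ⟨9 * 4 ^ j, by positivity, fun c => ?_⟩
    let t : Fin 2 → ℤ := fun i => 4 ^ j * (2 * ⌊c i / (4 * 4 ^ j)⌋ + 1)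
    have ok : Ok t X := fun i n p hp q hq x y => by
      have a := abs_le.mp ((PiLp.norm_apply_le p i).trans (hM p hp))
      have b := abs_le.mp ((PiLp.norm_apply_le q i).trans (hM q hq))
      rw [g, g, add_sub_right_comm]
      refine G5 _ _ _ ?_
      have := le_abs_self M
      have := abs_nonneg M
      exact_mod_cast (abs_lt.mpr ⟨by linarith, by linarith⟩ : |(n : ℝ) - 1| < 4 ^ j)
    refine ⟨pt t, ?_, patch_mv ok hX, moves ok⟩
    rintro _ ⟨p, hp, rfl⟩
    have d i : |(pt t - c) i| ≤ 2 * 4 ^ j := by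
      have h4 : (0 : ℝ) < 4 * 4 ^ j := by positivity
      have a := (le_div_iff₀ h4).mp (Int.floor_le (c i / (4 * 4 ^ j)))
      have b := (div_lt_iff₀ h4).mp (Int.lt_floor_add_one (c i / (4 * 4 ^ j)))
      simp only [PiLp.sub_apply, pt_ap, t]
      push_cast
      exact abs_le.mpr ⟨by linarith, by linarith⟩
    have : ‖pt t - c‖ ≤ 4 * 4 ^ j := by
      rw [EuclideanSpace.norm_eq, Real.sqrt_le_iff, Fin.sum_univ_two]
      have a := pow_le_pow_left₀ (abs_nonneg _) (d 0) 2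
      have b := pow_le_pow_left₀ (abs_nonneg _) (d 1) 2
      simp only [Real.norm_eq_abs]
      exact ⟨by positivity, by nlinarith⟩
    simp only [mem_ball, dist_eq_norm, vadd_eq_add, add_sub_right_comm (pt t)]
    linarith [norm_add_le (pt t - c) p, hM p hp, le_abs_self M, abs_nonneg M]
  infl := by
    rintro _ ⟨a, -, rfl⟩
    convert patch_box (l := fun i => 4 * a i) (u := fun i => 4 * nx (a i))
      (fun i => by linarith [nx_lt (a i)]) (fun _ => g0 _ (by omega)) fun _ => g0 _ (by omega)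
    rw [tile, box_smul four_pos]
    congr <;> ext <;> push_cast <;> ring
  defl := by
    rintro _ ⟨a, -, rfl⟩ _ ⟨b, -, rfl⟩ ⟨v, h⟩
    refine ⟨pt fun i => 4 * (b i - a i), ?_, moves fun i n p hp q hq x y => ?_⟩
    · rw [h, tile, box_add, box_smul four_pos, box_smul four_pos, box_add]
      congr <;> ext i <;> simp [pt_ap, (tile_eq h i).1] <;> ring
    · rw [tile, box_smul four_pos] at hp hq
      have x : 4 * a i ≤ n := by
        exact_mod_cast (by linarith [(hp i).1] : 4 * (a i : ℝ) ≤ n)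
      have y : n ≤ 4 * nx (a i) := by
        exact_mod_cast (by linarith [(hq i).2] : (n : ℝ) ≤ 4 * nx (a i))
      have e := (tile_eq h i).2
      obtain c | c | c : n % 2 = 0 ∨ n % 4 = 3 ∨ n % 4 = 1 := by omega
      · exact iff_of_true (g0 _ (by omega)) (g0 _ c)
      · exact iff_of_false (g3 _ (by omega)) (g3 _ c)
      · rw [g1 _ (n / 4 + (b i - a i)) (by omega), g1 n (n / 4) (by omega)]
        have ca := nx_cases (a i)
        have cb := nx_cases (b i)
        by_cases d : n / 4 = a i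
        · rw [d, add_sub_cancel]
          rcases ca with ca | ca <;> rcases cb with cb | cb <;> simp only [ca.1, cb.1] <;> omega
        · exact iff_of_true (g0 _ (by omega)) (g0 _ (by omega))

theorem mem_V (p : E) : p ∈ Vert 𝒯 ↔ ∀ i, ∃ n, g n ∧ p i = 2 * n := by
  have le (a : Fin 2 → ℤ) (i : Fin 2) : 2 * (a i : ℝ) ≤ 2 * nx (a i) := by linarith [nxR (a i)]
  simp only [Vert, mem_iUnion]
  constructor
  · rintro ⟨_, ⟨a, ha, rfl⟩, h⟩ i
    rcases (box_ext (le a) p).mp h i with c | c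
    exacts [⟨_, ha i, c⟩, ⟨_, nx_g _, c⟩]
  · intro h
    choose a ha using h
    exact ⟨_, ⟨a, fun i => (ha i).1, rfl⟩, (box_ext (le a) p).mpr fun i => .inl (ha i).2⟩

theorem cnt (s : Finset ℤ) (X : Set E) (h : ∀ p, p ∈ X ↔ ∀ i, ∃ n ∈ s, p i = 2 * n) :
    X.ncard = s.card ^ 2 := by
  have : X = pt '' ↑(Fintype.piFinset fun _ : Fin 2 => s) := by
    ext p
    rw [h]
    refine ⟨fun h => ?_, by rintro ⟨a, ha, rfl⟩ i; exact ⟨a i, Fintype.mem_piFinset.mp ha i, rfl⟩⟩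
    choose a ha using h
    exact ⟨a, Fintype.mem_piFinset.mpr fun i => (ha i).1, by ext i; exact (ha i).2.symm⟩
  rw [this, ncard_image_of_injective, ncard_coe_finset, Fintype.card_piFinset_const]
  intro a b e
  ext i
  simpa [pt_ap] using congrArg (· i) e

open Classical in
noncomputable def S (N : ℕ) : Finset ℤ := (Finset.Ioo (0 : ℤ) N).filter g

theorem S4 (N : ℕ) (h0 : 0 < N) (h : g N) : (S (4 * N)).card = (S N).card + 2 * N := by
  classical
  have : S (4 * N) = (insert (N : ℤ) (S N)).image (4 * · - 3) ∪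
      (Finset.Ioo 0 (2 * N : ℤ)).image (2 * ·) := by
    ext n
    simp only [S, Finset.mem_filter, Finset.mem_Ioo, Finset.mem_union, Finset.mem_image,
      Finset.mem_insert]
    push_cast
    constructor
    · rintro ⟨⟨a, b⟩, c⟩
      obtain d | d | d : n % 2 = 0 ∨ n % 4 = 3 ∨ n % 4 = 1 := by omega
      · exact .inr ⟨n / 2, by omega, by omega⟩
      · exact absurd c (g3 _ d)
      · have := (g1 n (n / 4) (by omega)).mp c
        refine .inl ⟨n / 4 + 1, ?_, by omega⟩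
        by_cases e : n / 4 + 1 = N
        exacts [.inl e, .inr ⟨by omega, this⟩]
    · rintro (⟨m, rfl | ⟨a, b⟩, rfl⟩ | ⟨m, a, rfl⟩)
      · exact ⟨by omega, (g1 _ (N - 1) (by omega)).mpr (by simpa)⟩
      · exact ⟨by omega, (g1 _ (m - 1) (by omega)).mpr (by simpa)⟩
      · exact ⟨by omega, g0 _ (by omega)⟩
  rw [this, Finset.card_union_of_disjoint, Finset.card_image_of_injective,
    Finset.card_image_of_injective, Finset.card_insert_of_notMem (by simp [S]), Int.card_Ioo]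
  · omega
  · intro a b e; simpa using e
  · intro a b e; simpa using e
  · simp only [Finset.disjoint_left, Finset.mem_image]
    rintro _ ⟨a, -, rfl⟩ ⟨b, -, e⟩
    omega

theorem gN (k : ℕ) : g (4 ^ k : ℕ) := by
  cases k with
  | zero => simp [g, G]
  | succ k => exact g0 _ (by rw [pow_succ]; omega)

theorem Sk (k : ℕ) : 3 * (S (4 ^ k)).card + 2 = 2 * 4 ^ k := by
  induction k with
  | zero =>
    simp [S]
    omega
  | succ k ih =>
    rw [pow_succ', S4 _ (by positivity) (gN k)]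
    omega

theorem result : ∃ (𝒯 : Set (Set E)) (P : Set E), SelfAffine 𝒯 4 ∧
    (∀ x ∈ Vert 𝒯, ∀ y ∈ Vert 𝒯, x ≠ y → 2 ≤ dist x y) ∧
    (∀ v : E, (∀ T ∈ 𝒯, v +ᵥ T ∈ 𝒯) → v = 0) ∧ P ∈ 𝒯 ∧
    ∀ Δ : ℝ, ¬(fun k : ℕ => ((Vert 𝒯 ∩ (4 ^ k : ℝ) • P).ncard : ℝ) -
        (volume.real ((4 ^ k : ℝ) • P) / Δ +
          (Vert 𝒯 ∩ frontier ((4 ^ k : ℝ) • P)).ncard / 2)) =o[atTop]
      fun k : ℕ => (μH[1] (frontier ((4 ^ k : ℝ) • P))).toReal := by
  refine ⟨𝒯, tile 0, sa, fun x hx y hy ne => ?_, fun v hv => ?_, ⟨0, fun _ => g0 _ rfl, rfl⟩,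
    fun Δ h => ?_⟩
  · obtain ⟨i, hi⟩ : ∃ i, x i ≠ y i := by
      by_contra! c
      exact ne (PiLp.ext c)
    obtain ⟨a, -, ha⟩ := (mem_V x).mp hx i
    obtain ⟨b, -, hb⟩ := (mem_V y).mp hy i
    refine le_trans ?_ (PiLp.dist_apply_le x y i)
    have : (1 : ℝ) ≤ |(a : ℝ) - b| := by
      exact_mod_cast Int.one_le_abs (sub_ne_zero.mpr fun c => hi (by rw [ha, hb, c]))
    rw [ha, hb, Real.dist_eq, ← mul_sub, abs_mul, abs_two]
    linarith
  · obtain ⟨a, ha, e⟩ := hv _ ⟨1, fun _ => gN 0, rfl⟩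
    obtain ⟨b, hb, e'⟩ := hv _ ⟨a, ha, rfl⟩
    ext i
    have x := (tile_eq e i).1
    have y := (tile_eq e' i).1
    have z : b i - 1 = (a i - 1) * 2 := by
      exact_mod_cast (by simp at x; linarith : (b i : ℝ) - 1 = (a i - 1) * 2)
    by_contra c
    refine (G2 (a i - 1) fun d => c ?_).mp (z ▸ hb i) (ha i)
    simp [x, sub_eq_zero.mp d]
  · have e (k : ℕ) : (4 ^ k : ℝ) • tile 0 = box (fun _ => 0) fun _ => 2 * (4 ^ k : ℕ) := by
      have : nx 0 = 1 := if_pos (gN 0)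
      rw [tile, box_smul (by positivity)]
      simp [this, mul_comm]
    have D (k : ℕ) : ((Vert 𝒯 ∩ (4 ^ k : ℝ) • tile 0).ncard : ℝ) -
        (volume.real ((4 ^ k : ℝ) • tile 0) / Δ +
          (Vert 𝒯 ∩ frontier ((4 ^ k : ℝ) • tile 0)).ncard / 2) =
        (2 * 4 ^ k + 1) ^ 2 / 9 + 1 - 4 * (4 ^ k) ^ 2 / Δ := by
      classical
      have a := cnt (S (4 ^ k)) (Vert 𝒯 ∩ interior ((4 ^ k : ℝ) • tile 0)) fun p => by
        simp only [e, mem_inter_iff, mem_V, box_int, ← forall_and, S, Finset.mem_filter,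
          Finset.mem_Ioo]
        refine forall_congr' fun i => ⟨fun ⟨⟨n, a, b⟩, c, d⟩ => ⟨n, ⟨?_, a⟩, b⟩,
          fun ⟨n, ⟨⟨a, b⟩, c⟩, d⟩ => ⟨⟨n, c, d⟩, ?_⟩⟩
        · exact_mod_cast (⟨by linarith, by linarith⟩ : (0 : ℝ) < n ∧ (n : ℝ) < (4 ^ k : ℕ))
        · have : (0 : ℝ) < n ∧ (n : ℝ) < (4 ^ k : ℕ) := by exact_mod_cast And.intro a b
          exact ⟨by linarith, by linarith⟩
      have p4 : (0 : ℤ) < (4 ^ k : ℕ) := by positivity
      have b := cnt (insert 0 (insert ((4 ^ k : ℕ) : ℤ) (S (4 ^ k)))) (Vert 𝒯 ∩ (4 ^ k : ℝ) • tile 0)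
        fun p => by
        simp only [e, mem_inter_iff, mem_V, box, mem_ofPred_eq, ← forall_and, S, Finset.mem_filter,
          Finset.mem_Ioo, Finset.mem_insert]
        refine forall_congr' fun i => ⟨fun ⟨⟨n, a, b⟩, c, d⟩ => ⟨n, ?_, b⟩, fun ⟨n, a, d⟩ => ?_⟩
        · have : 0 ≤ n ∧ n ≤ (4 ^ k : ℕ) := by
            exact_mod_cast (⟨by linarith, by linarith⟩ : (0 : ℝ) ≤ n ∧ (n : ℝ) ≤ (4 ^ k : ℕ))
          simp only [a, and_true]
          omega
        · have : (0 : ℝ) ≤ n ∧ (n : ℝ) ≤ (4 ^ k : ℕ) := by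
            exact_mod_cast (by omega : 0 ≤ n ∧ n ≤ (4 ^ k : ℕ))
          refine ⟨⟨n, ?_, d⟩, by linarith, by linarith⟩
          rcases a with rfl | rfl | a
          exacts [g0 _ rfl, gN k, a.2]
      rw [Finset.card_insert_of_notMem (by simp [S]; positivity),
        Finset.card_insert_of_notMem (by simp [S])] at b
      have f : (Vert 𝒯 ∩ (4 ^ k : ℝ) • tile 0).Finite := finite_of_ncard_ne_zero (by simp [b])
      have c := ncard_sdiff_add_ncard_of_subset (inter_subset_inter_right (Vert 𝒯)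
        (interior_subset (s := (4 ^ k : ℝ) • tile 0))) f
      rw [← inter_sdiff_distrib_left, a, b, ← IsClosed.frontier_eq (e k ▸ box_closed _ _)] at c
      have v : volume.real ((4 ^ k : ℝ) • tile 0) = 4 * (4 ^ k) ^ 2 := by
        have := (PiLp.volume_preserving_ofLp (Fin 2)).measureReal_preimage
          (s := Icc (fun _ => (0 : ℝ)) fun _ => 2 * (4 ^ k : ℕ)) measurableSet_Icc.nullMeasurableSet
        rw [e, show box _ _ = WithLp.ofLp ⁻¹' Icc _ _ from Set.ext fun p => forall_and, this,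
          measureReal_def, Real.volume_Icc_pi_toReal fun _ => by positivity]
        simp
        ring
      have c : ((Vert 𝒯 ∩ frontier ((4 ^ k : ℝ) • tile 0)).ncard : ℝ) + (S (4 ^ k)).card ^ 2 =
        ((S (4 ^ k)).card + 1 + 1) ^ 2 := by exact_mod_cast c
      have s : 3 * ((S (4 ^ k)).card : ℝ) + 2 = 2 * 4 ^ k := by exact_mod_cast Sk k
      rw [v, b, ← s]
      push_cast
      linear_combination -c / 2
    have H (k : ℕ) : (μH[1] (frontier ((4 ^ k : ℝ) • tile 0))).toReal =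
        (μH[1] (frontier (tile 0))).toReal * 4 ^ k := by
      rw [show frontier ((4 ^ k : ℝ) • tile 0) = (4 ^ k : ℝ) • frontier (tile 0) from
        ((Homeomorph.smulOfNeZero (4 ^ k : ℝ) (by positivity)).image_frontier _).symm,
        Measure.hausdorffMeasure_smul₀ zero_le_one (by positivity)]
      simp [mul_comm]
    simp only [D, H] at h
    obtain ⟨k, hk⟩ := eventually_atTop.mp (h.of_const_mul_right.bound (c := 1 / 10) (by norm_num))
    have a := hk k le_rfl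
    have b := hk (k + 1) k.le_succ
    have p4 : (0 : ℝ) < 4 ^ k := by positivity
    rw [Real.norm_of_nonneg (r := 4 ^ _) (by positivity), Real.norm_eq_abs, abs_le] at a b
    rw [pow_succ] at b
    have : 4 * (4 ^ k * 4) ^ 2 / Δ = 16 * (4 * (4 ^ k) ^ 2 / Δ) := by ring
    nlinarith [a.2, b.1]

end Pool.Agent.Results.MP_9c1228_co.No
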